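import Pool.Agent.Lib.MP_144d21_co.X2.H98.Key

/-!
# X2: FAMR, FAMB
-/

set_option autoImplicit false
set_option linter.unusedSectionVars false

namespace Pool.Agent.Xu.X2.H98

open Finset Pool.Agent.Xu Pool.Agent.Xu.X2

variable {V : Type} [Fintype V] [DecidableEq V]

theorem row_mem {p : V → Fin 3 → ℝ} {G : SimpleGraph V} {S : Finset V} {u v : V} (hu : u ∈ S)
    (hv : v ∈ S) (h : G.Adj u v) : row p u v ∈ rs p G S :=
  Submodule.subset_span ⟨u, hu, v, hv, h, rfl⟩

theorem rs_le_of_clus {p : V → Fin 3 → ℝ} {G F : SimpleGraph V} {S T : Finset V}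
    (h : Clus p (G ⊔ F) S T) : rs p (G ⊔ cl T) S ≤ rs p (G ⊔ F) S := by
  unfold rs
  rw [Submodule.span_le]
  rintro x ⟨u, hu, v, hv, ha, rfl⟩
  rcases ha with ha | ha
  · exact row_mem hu hv (Or.inl ha)
  · exact h.2 u ha.2.1 v ha.2.2

theorem famr (hG : GlurS) (hS : SplitS) : FamrS := by
  intro V _ _ p hp G F S T P Q t hc hF hcl hfam0
  obtain ⟨th, hth, hfam⟩ := hfam0
  obtain ⟨k0, y, hyQ, hyk⟩ := hfam T Q P hc.symm
  have hrs := rs_le_of_clus hcl
  have claim : ∀ a ∈ T ∪ P, ∀ b ∈ T ∪ P, row p a b ∈ rs p G S →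
      row p a b ∈ rs p (G ⊔ F) (T ∪ P) :=
    fun a ha b hb h => hrs (hG V p hp.1 G S T P Q hc a ha b hb h)
  have claim2 : ∀ u ∈ T, ∀ v ∈ th k0 ∩ (T ∪ P), row p u v ∈ rs p (G ⊔ F) (T ∪ P) := by
    intro u hu v hv
    rw [mem_inter] at hv
    by_cases hvT : v ∈ T
    · exact hcl.2 u hu v hvT
    · have hvP := (mem_union.1 hv.2).resolve_left hvT
      have h1 := hS V p hp G S T P Q hc v hvP y hyQ ((hth k0).2 v hv.1 y hyk)
      exact hrs (h1.2 u (mem_insert_of_mem hu) v (mem_insert_self v T))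
  refine ⟨fun j => if j = k0 then T ∪ (th k0 ∩ (T ∪ P)) else th j ∩ (T ∪ P), ?_, ?_⟩
  · intro j
    by_cases hj : j = k0
    · simp only [if_pos hj]
      refine ⟨union_subset subset_union_left inter_subset_right, ?_⟩
      intro u hu v hv
      rcases mem_union.1 hu with hu | hu <;> rcases mem_union.1 hv with hv | hv
      · exact hcl.2 u hu v hv
      · exact claim2 u hu v hv
      · rw [row_comm]; exact claim2 v hv u hu
      · rw [mem_inter] at hu hv
        exact claim u hu.2 v hv.2 ((hth k0).2 u hu.1 v hv.1)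
    · simp only [if_neg hj]
      refine ⟨inter_subset_right, ?_⟩
      intro u hu v hv
      rw [mem_inter] at hu hv
      exact claim u hu.2 v hv.2 ((hth j).2 u hu.1 v hv.1)
  · intro T' P' Q' hc'
    have hsub : P' ⊆ T ∪ P := by
      rw [← hc'.un]; exact subset_union_right.trans subset_union_left
    by_cases hA : ∀ a ∈ P', a ∉ T
    · obtain ⟨k, x, hxP, hxk⟩ := hfam _ _ _
        ((side_lift hc le_sup_left hc'.sp hA).cut hc'.card)
      refine ⟨k, x, hxP, ?_⟩
      by_cases hk : k = k0
      · subst hk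
        simp only [if_true]
        exact mem_union_right _ (mem_inter.2 ⟨hxk, hsub hxP⟩)
      · simp only [if_neg hk]
        exact mem_inter.2 ⟨hxk, hsub hxP⟩
    · push Not at hA
      obtain ⟨a, haP, haT⟩ := hA
      exact ⟨k0, a, haP, by simp only [if_true]; exact mem_union_left _ haT⟩

theorem row_off {p : V → Fin 3 → ℝ} {a b v : V} (ha : v ≠ a) (hb : v ≠ b) :
    row p a b v = 0 := by
  unfold row
  rw [Pi.add_apply, Pi.single_eq_of_ne ha, Pi.single_eq_of_ne hb, add_zero]

theorem clus_pair {p : V → Fin 3 → ℝ} {G : SimpleGraph V} {S : Finset V} {a b : V}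
    (ha : a ∈ S) (hb : b ∈ S) (h : G.Adj a b) : Clus p G S {a, b} := by
  refine ⟨?_, ?_⟩
  · intro z hz
    simp only [mem_insert, mem_singleton] at hz
    rcases hz with rfl | rfl <;> assumption
  · intro u hu v hv
    simp only [mem_insert, mem_singleton] at hu hv
    rcases hu with rfl | rfl <;> rcases hv with rfl | rfl
    · rw [row_self]; exact Submodule.zero_mem _
    · exact row_mem ha hb h
    · exact row_mem hb ha h.symm
    · rw [row_self]; exact Submodule.zero_mem _

/-- a cluster of `G[S]` without `v` is a cluster of `G[S \ v]` for `v` of degree at most 3 -/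
theorem clus_erase (hZ : ZexS) {p : V → Fin 3 → ℝ} (hp : GP p) {G : SimpleGraph V}
    {S K : Finset V} {v : V} (hv : v ∈ S) (hd : (nb G S v).card ≤ 3) (h : Clus p G S K) :
    Clus p G (S.erase v) (K.erase v) := by
  refine ⟨erase_subset_erase v h.1, ?_⟩
  intro a ha b hb
  rw [mem_erase] at ha hb
  exact (hZ V p hp G S v hv hd).2 _ (h.2 a ha.2 b hb.2) (row_off ha.1.symm hb.1.symm)

theorem clus_mono {p : V → Fin 3 → ℝ} {G G' : SimpleGraph V} {S S' K : Finset V}
    (hS : S ⊆ S') (hG : G ≤ G') (h : Clus p G S K) : Clus p G' S' K :=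
  ⟨h.1.trans hS, fun a ha b hb => rs_mono hS (fun _ _ _ _ h => hG h) (h.2 a ha b hb)⟩

theorem famb (hZ : ZexS) (hF : FourS) : FambS := by
  intro V _ _ p hp G S v t n h3 h5 hv ht hnb hncl hfam0 i
  obtain ⟨th, hth, hfam⟩ := hfam0
  have hcard : (nb G S v).card = 3 := by rw [hnb, tS_card ht]
  have hvT : v ∉ tS t := by
    rw [← hnb, mem_nb]
    exact fun h => h.2.ne rfl
  have hTS : tS t ⊆ S := by
    rw [← hnb]
    exact fun z hz => (mem_nb.1 hz).1
  have hTe : ∀ z ∈ tS t, z ∈ S.erase v :=
    fun z hz => mem_erase.2 ⟨fun he => hvT (he ▸ hz), hTS hz⟩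
  -- the separation with the side `{v}`
  have hsep : Cut3 G S (tS t) {v} ((S.erase v) \ tS t) := by
    refine ⟨tS_card ht, ?_, ?_, ?_, ?_, singleton_nonempty v, ?_, ?_⟩
    · ext z
      simp only [mem_union, mem_singleton, mem_sdiff, mem_erase]
      constructor
      · rintro ((h | rfl) | h)
        · exact hTS h
        · exact hv
        · exact h.1.2
      · intro h
        by_cases h1 : z ∈ tS t
        · exact Or.inl (Or.inl h1)
        · by_cases h2 : z = v
          · exact Or.inl (Or.inr h2)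
          · exact Or.inr ⟨⟨h2, h⟩, h1⟩
    · rw [disjoint_singleton_right]; exact hvT
    · exact disjoint_sdiff
    · rw [disjoint_singleton_left, mem_sdiff]
      exact fun h => notMem_erase v S h.1
    · rw [← card_pos, card_sdiff_of_subset hTe, card_erase_of_mem hv, tS_card ht]
      omega
    · intro a ha b hb hab
      rw [mem_singleton] at ha
      subst ha
      rw [mem_sdiff, mem_erase] at hb
      apply hb.2
      rw [← hnb, mem_nb]
      exact ⟨hb.1.2, hab⟩
  obtain ⟨k0, x0, hx0, hk0⟩ := hfam _ _ _ hsep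
  rw [mem_singleton] at hx0
  subst hx0
  have hk : ∀ x ∈ th k0, x = x0 ∨ x ∈ tS t := by
    intro x hx
    by_contra hcon
    rw [not_or] at hcon
    have h1 := hF V p hp G S x0 x hv ((hth k0).1 hx) hcon.1 (by rw [hnb]; exact hcon.2) hcard
      ((hth k0).2 x0 hk0 x hx)
    apply hncl
    rw [hnb] at h1
    exact ⟨hTe, fun a ha b hb => h1.2 a (mem_insert_of_mem ha) b (mem_insert_of_mem hb)⟩
  set G' := G ⊔ tE t {i + 1, i + 2} with hG'
  have hadj : ∀ j, j ≠ i → G'.Adj (t i) (t j) := fun j hj => Or.inr (tE_adj ht i j hj)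
  have htm : ∀ j, t j ∈ S.erase x0 := fun j => hTe _ (mem_tS.2 ⟨j, rfl⟩)
  have h1 : i + 1 ≠ i := by fin_cases i <;> decide
  have h2 : i + 2 ≠ i := by fin_cases i <;> decide
  refine ⟨Fin.cons {t i, t (i + 1)} fun j => if j = k0 then {t i, t (i + 2)} else
    (th j).erase x0, ?_, ?_⟩
  · intro j
    refine Fin.cases ?_ (fun j => ?_) j
    · rw [Fin.cons_zero]
      exact clus_pair (htm _) (htm _) (hadj _ h1)
    · rw [Fin.cons_succ]
      by_cases hj : j = k0
      · rw [if_pos hj]
        exact clus_pair (htm _) (htm _) (hadj _ h2)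
      · rw [if_neg hj]
        exact clus_mono (subset_refl _) le_sup_left (clus_erase hZ hp.1 hv hcard.le (hth j))
  · intro T' P' Q' hc'
    have hPS : P' ⊆ S.erase x0 := by
      rw [← hc'.un]; exact subset_union_right.trans subset_union_left
    by_cases hA : ∀ a ∈ P', a ∉ tS t
    · have hlift : Sp G S T' P' (Q' ∪ (S \ S.erase x0)) := by
        refine hc'.sp.lift le_sup_left (erase_subset _ _) ?_
        intro a ha b hb hb2 hab
        have hbv : b = x0 := by
          by_contra hne
          exact hb2 (mem_erase.2 ⟨hne, hb⟩)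
        subst hbv
        refine hA a ha ?_
        rw [← hnb, mem_nb]
        exact ⟨mem_of_mem_erase (hPS ha), hab.symm⟩
      obtain ⟨k, x, hxP, hxk⟩ := hfam _ _ _ (hlift.cut hc'.card)
      have hkk : k ≠ k0 := by
        rintro rfl
        rcases hk x hxk with h | h
        · exact notMem_erase x0 S (h ▸ hPS hxP)
        · exact hA x hxP h
      refine ⟨k.succ, x, hxP, ?_⟩
      rw [Fin.cons_succ, if_neg hkk]
      exact mem_erase.2 ⟨ne_of_mem_erase (hPS hxP), hxk⟩
    · push Not at hA
      obtain ⟨a, haP, haT⟩ := hA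
      obtain ⟨j, rfl⟩ := mem_tS.1 haT
      by_cases hj : j = i + 2
      · refine ⟨k0.succ, _, haP, ?_⟩
        rw [Fin.cons_succ, if_pos rfl, hj]
        simp
      · refine ⟨0, _, haP, ?_⟩
        rw [Fin.cons_zero]
        have : j = i ∨ j = i + 1 := by
          revert hj
          fin_cases i <;> fin_cases j <;> decide
        rcases this with rfl | rfl <;> simp

end Pool.Agent.Xu.X2.H98
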