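import Pool.Agent.Lib.MP_144d21_co.X2.IfaceS

/-!
# X2: ALGB
-/

set_option autoImplicit false

namespace Pool.Agent.Xu.X2.H98

open Finset Pool.Agent.Xu Pool.Agent.Xu.X2

/-- the vectors of `W` that vanish on `I` -/
def van (W : Submodule ℝ (Fin 3 → ℝ)) (I : Finset (Fin 3)) : Submodule ℝ (Fin 3 → ℝ) :=
  W ⊓ (⨅ i ∈ I, LinearMap.ker (LinearMap.proj i : (Fin 3 → ℝ) →ₗ[ℝ] ℝ))

theorem mem_van {W : Submodule ℝ (Fin 3 → ℝ)} {I : Finset (Fin 3)} {ν : Fin 3 → ℝ} :
    ν ∈ van W I ↔ ν ∈ W ∧ ∀ i ∈ I, ν i = 0 := by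
  simp [van, Submodule.mem_iInf]

theorem dfc_eq (W : Submodule ℝ (Fin 3 → ℝ)) (I : Finset (Fin 3)) :
    dfc W I = Module.finrank ℝ (van W I) := rfl

theorem van_empty (W : Submodule ℝ (Fin 3 → ℝ)) : van W ∅ = W := by
  ext ν
  rw [mem_van]
  simp

theorem inj_iff {W : Submodule ℝ (Fin 3 → ℝ)} {I : Finset (Fin 3)} :
    Inj W I ↔ dfc W I = 0 := by
  rw [dfc_eq, Submodule.finrank_eq_zero, Submodule.eq_bot_iff]
  unfold Inj
  constructor
  · intro h ν hν
    rw [mem_van] at hν
    exact h ν hν.1 hν.2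
  · intro h ν hν h0
    exact h ν (mem_van.2 ⟨hν, h0⟩)

theorem inj_of_bot {W : Submodule ℝ (Fin 3 → ℝ)} (h : dfc W ∅ = 0) (I : Finset (Fin 3)) :
    Inj W I := by
  intro ν hν _
  have h1 := inj_iff.2 h
  exact h1 ν hν (by simp)

theorem finrank_W {W : Submodule ℝ (Fin 3 → ℝ)} : dfc W ∅ = Module.finrank ℝ W := by
  rw [dfc_eq, van_empty]

/-- one more coordinate costs at most one dimension -/
theorem dfc_insert (W : Submodule ℝ (Fin 3 → ℝ)) (I : Finset (Fin 3)) (i : Fin 3) :
    dfc W I ≤ dfc W (insert i I) + 1 := by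
  rw [dfc_eq, dfc_eq]
  set f : van W I →ₗ[ℝ] ℝ :=
    (LinearMap.proj i : (Fin 3 → ℝ) →ₗ[ℝ] ℝ).comp (van W I).subtype with hf
  have h1 := f.finrank_range_add_finrank_ker
  have h2 : Module.finrank ℝ (LinearMap.range f) ≤ 1 := by
    calc _ ≤ Module.finrank ℝ ℝ := Submodule.finrank_le _
      _ = 1 := Module.finrank_self ℝ
  have h3 : Module.finrank ℝ (LinearMap.ker f) ≤ Module.finrank ℝ (van W (insert i I)) := by
    have h4 : (LinearMap.ker f).map (van W I).subtype ≤ van W (insert i I) := by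
      rintro ν ⟨⟨x, hx⟩, hx1, rfl⟩
      rw [SetLike.mem_coe, LinearMap.mem_ker] at hx1
      rw [mem_van] at hx ⊢
      refine ⟨hx.1, ?_⟩
      intro j hj
      rcases mem_insert.1 hj with rfl | hj
      · exact hx1
      · exact hx.2 j hj
    have h5 := Submodule.finrank_mono h4
    rwa [Submodule.finrank_map_subtype_eq] at h5
  omega

theorem other {i j : Fin 3} (h : j ≠ i) : j = i + 1 ∨ j = i + 2 := by
  revert h
  fin_cases i <;> fin_cases j <;> decide

theorem exists_basis {W : Submodule ℝ (Fin 3 → ℝ)} (h : dfc W ∅ = 2) :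
    ∃ i, Inj W {i + 1, i + 2} := by
  by_contra hcon
  push Not at hcon
  have he : ∀ i, (Pi.single i 1 : Fin 3 → ℝ) ∈ W := by
    intro i
    have h1 := hcon i
    unfold Inj at h1
    push Not at h1
    obtain ⟨ν, hν, h0, hne⟩ := h1
    have h2 : ν i ≠ 0 := by
      intro hi
      apply hne
      funext j
      by_cases hj : j = i
      · rw [hj, hi]; rfl
      · rcases other hj with rfl | rfl
        · exact h0 _ (by simp)
        · exact h0 _ (by simp)
    have h3 : (Pi.single i 1 : Fin 3 → ℝ) = (ν i)⁻¹ • ν := by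
      funext j
      by_cases hj : j = i
      · subst hj
        rw [Pi.single_eq_same, Pi.smul_apply, smul_eq_mul, inv_mul_cancel₀ h2]
      · rw [Pi.single_eq_of_ne hj, Pi.smul_apply, smul_eq_mul]
        have h4 : ν j = 0 := by
          rcases other hj with rfl | rfl
          · exact h0 _ (by simp)
          · exact h0 _ (by simp)
        rw [h4, mul_zero]
    rw [h3]
    exact W.smul_mem _ hν
  have htop : W = ⊤ := by
    rw [eq_top_iff]
    intro ν _
    have : ν = ∑ i, ν i • (Pi.single i 1 : Fin 3 → ℝ) := by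
      funext j
      rw [Finset.sum_apply]
      simp [Pi.single_apply]
    rw [this]
    exact W.sum_mem fun i _ => W.smul_mem _ (he i)
  rw [finrank_W, htop, finrank_top, Module.finrank_fin_fun] at h
  omega

theorem algb : AlgbS := by
  intro W U bX a hU ha hlow hb huniv
  refine ⟨?_, ?_, ?_, ?_⟩
  · intro h
    have h1 := hlow {0 + 1, 0 + 2} (inj_of_bot h _)
    have h2 := hlow {0} (inj_of_bot h _)
    have h3 := hb 0
    linarith
  · intro h
    obtain ⟨i, hi⟩ := exists_basis h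
    have h1 := hlow _ hi
    have h2 := ha {i}
    have h3 := hb i
    linarith
  · intro h
    have h1 : Inj W univ := fun ν _ h0 => funext fun i => h0 i (mem_univ i)
    have h2 := hlow _ h1
    linarith
  · intro h
    rw [finrank_W, finrank_eq_one_iff'] at h
    obtain ⟨⟨ν, hν⟩, hne, hsp⟩ := h
    have hne' : ν ≠ 0 := fun h0 => hne (by ext1; exact h0)
    have hsp' : ∀ x ∈ W, ∃ c : ℝ, x = c • ν := by
      intro x hx
      obtain ⟨c, hc⟩ := hsp ⟨x, hx⟩
      exact ⟨c, (congrArg Subtype.val hc).symm⟩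
    have hinj : ∀ I : Finset (Fin 3), (∃ i ∈ I, ν i ≠ 0) → Inj W I := by
      rintro I ⟨i, hi, hi0⟩ x hx h0
      obtain ⟨c, rfl⟩ := hsp' x hx
      have h1 := h0 i hi
      rw [Pi.smul_apply, smul_eq_mul] at h1
      rcases mul_eq_zero.1 h1 with h1 | h1
      · rw [h1, zero_smul]
      · exact (hi0 h1).elim
    obtain ⟨i, hi⟩ : ∃ i, ν i ≠ 0 := by
      by_contra hcon
      push Not at hcon
      exact hne' (funext hcon)
    by_cases hj : ∃ j, j ≠ i ∧ ν j ≠ 0
    · left
      obtain ⟨j, hji, hj0⟩ := hj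
      have h1 := hlow {i} (hinj _ ⟨i, by simp, hi⟩)
      have h2 := hlow {i + 1, i + 2} (hinj _ ⟨j, by
        rcases other hji with rfl | rfl <;> simp, hj0⟩)
      have h3 := hb i
      linarith
    · right
      push Not at hj
      refine ⟨i, hinj _ ⟨i, by simp, hi⟩, ?_⟩
      have hv : van W {i + 1, i + 2} = W := by
        ext x
        rw [mem_van]
        refine ⟨fun h => h.1, fun hx => ⟨hx, ?_⟩⟩
        obtain ⟨c, rfl⟩ := hsp' x hx
        intro j hj2
        rw [Pi.smul_apply, smul_eq_mul, hj j, mul_zero]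
        rintro rfl
        simp only [mem_insert, mem_singleton] at hj2
        revert hj2
        clear hi hsp hne hsp' hinj hlow hb hj
        fin_cases j <;> decide
      rw [dfc_eq, hv, finrank_eq_one_iff']
      exact ⟨⟨ν, hν⟩, hne, hsp⟩

end Pool.Agent.Xu.X2.H98
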