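import Pool.Agent.Lib.MP_144d21_co.X2.H98.Fams
import Pool.Agent.Lib.MP_144d21_co.X2.H98.Algb

/-!
# X2: CASEB
-/

set_option autoImplicit false
set_option linter.unusedSectionVars false

namespace Pool.Agent.Xu.X2.H98

open Finset Pool.Agent.Xu Pool.Agent.Xu.X2

variable {V : Type} [Fintype V] [DecidableEq V]

theorem exists_t {K : Finset V} (h : K.card = 3) :
    ∃ t : Fin 3 → V, Function.Injective t ∧ K = tS t := by
  obtain ⟨x, y, z, hxy, hxz, hyz, rfl⟩ := card_eq_three.1 h
  refine ⟨![x, y, z], ?_, ?_⟩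
  · intro i j hij
    fin_cases i <;> fin_cases j <;> simp_all
  · ext u
    rw [mem_tS]
    constructor
    · intro hu
      simp only [mem_insert, mem_singleton] at hu
      rcases hu with rfl | rfl | rfl
      · exact ⟨0, rfl⟩
      · exact ⟨1, rfl⟩
      · exact ⟨2, rfl⟩
    · rintro ⟨j, rfl⟩
      fin_cases j <;> simp

theorem tE_le (t : Fin 3 → V) (I : Finset (Fin 3)) : tE t I ≤ cl (tS t) := by
  intro a b h
  obtain ⟨hne, i, -, h⟩ := h
  rcases h with ⟨rfl, rfl⟩ | ⟨rfl, rfl⟩
  · exact ⟨hne, mem_tS.2 ⟨_, rfl⟩, mem_tS.2 ⟨_, rfl⟩⟩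
  · exact ⟨hne, mem_tS.2 ⟨_, rfl⟩, mem_tS.2 ⟨_, rfl⟩⟩

theorem sup_tE_empty (G : SimpleGraph V) (t : Fin 3 → V) : G ⊔ tE t ∅ = G := by
  ext a b
  rw [SimpleGraph.sup_adj]
  constructor
  · rintro (h | ⟨-, i, hi, -⟩)
    · exact h
    · exact (notMem_empty i hi).elim
  · exact Or.inl

theorem conn_mono {G G' : SimpleGraph V} {S : Finset V} (hG : G ≤ G') (h : Conn G S) :
    Conn G' S := by
  refine ⟨h.1, fun A hA hn hne => ?_⟩
  obtain ⟨a, ha, b, hb, hbA, hab⟩ := h.2 A hA hn hne
  exact ⟨a, ha, b, hb, hbA, hG hab⟩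

/-- the separation given by a vertex of degree 3 -/
theorem sep_v {G : SimpleGraph V} {S : Finset V} {v : V} {t : Fin 3 → V} (h5 : 5 ≤ S.card)
    (hv : v ∈ S) (ht : Function.Injective t) (hnb : nb G S v = tS t) :
    Cut3 G S (tS t) ((S.erase v) \ tS t) {v} ∧ tS t ∪ ((S.erase v) \ tS t) = S.erase v := by
  have hvT : v ∉ tS t := by
    rw [← hnb, mem_nb]
    exact fun h => h.2.ne rfl
  have hTS : tS t ⊆ S := by
    rw [← hnb]
    exact fun z hz => (mem_nb.1 hz).1
  have hTe : tS t ⊆ S.erase v :=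
    fun z hz => mem_erase.2 ⟨fun he => hvT (he ▸ hz), hTS hz⟩
  have hun : tS t ∪ ((S.erase v) \ tS t) = S.erase v := union_sdiff_of_subset hTe
  refine ⟨⟨tS_card ht, ?_, disjoint_sdiff, ?_, ?_, ?_, singleton_nonempty v, ?_⟩, hun⟩
  · rw [hun, union_comm, ← insert_eq, insert_erase hv]
  · rw [disjoint_singleton_right]; exact hvT
  · rw [disjoint_singleton_right, mem_sdiff]
    exact fun h => notMem_erase v S h.1
  · rw [← card_pos, card_sdiff_of_subset hTe, card_erase_of_mem hv, tS_card ht]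
    omega
  · intro a ha b hb hab
    rw [mem_singleton] at hb
    subst hb
    rw [mem_sdiff, mem_erase] at ha
    apply ha.2
    rw [← hnb, mem_nb]
    exact ⟨ha.1.2, hab.symm⟩

theorem cc_pos (n : ℕ) : 0 < cc n := by unfold cc; positivity

theorem cc_succ (n : ℕ) : 3 / 4 * cc n ≤ cc (n + 1) := by
  unfold cc
  rcases Nat.lt_or_ge n 5 with h | h
  · have h1 : n - 5 = 0 := by omega
    have h2 : n + 1 - 5 = 0 := by omega
    rw [h1, h2, pow_zero]; norm_num
  · have h1 : n + 1 - 5 = (n - 5) + 1 := by omega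
    rw [h1, pow_succ]
    have : 0 < ((3 : ℝ) / 4) ^ (n - 5) := by positivity
    linarith

theorem caseb (hE : EesS) (hKN : KnS) (hZ : ZexS) (hW : WrkS) (hD : Dg3S) (hDA : Dg3aS)
    (hA : AlgbS) (hK : KeyS) (hFR : FamrS) (hNH : NohubS) (hFB : FambS) (hS : SideS)
    (hB : BnnS) : CasebS := by
  intro V _ _ p hp G S v h3 h5 hIH hv hd hhub n hfam
  obtain ⟨-, hpos, hmono, -, h32, h33, -⟩ := hE
  obtain ⟨t, ht, hnb⟩ := exists_t hd
  obtain ⟨hc, hun⟩ := sep_v h5 hv ht hnb
  set P := (S.erase v) \ tS t with hP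
  have hcard : (S.erase v).card + 1 = S.card := by
    rw [card_erase_of_mem hv]; omega
  have hTS : tS t ⊆ S.erase v := by rw [← hun]; exact subset_union_left
  obtain ⟨hW1, hW2, -⟩ := hW V p hp.1 G (S.erase v) t ht hTS
  set W := WW p G (S.erase v) t with hWdef
  set a := dd p (G ⊔ cl (tS t)) (S.erase v) with ha
  have hddI : ∀ I, dd p (G ⊔ tE t I) (S.erase v) = a + dfc W I := by
    intro I
    have h1 := hW1 I
    have h2 := (hKN V p hp.1 (G ⊔ cl (tS t)) (S.erase v) (by omega)).1
    rw [ha]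
    unfold dd
    omega
  have hddS : dd p G S = a + dfc W ∅ := by
    rw [← hddI ∅, sup_tE_empty]
    have h1 := (hZ V p hp.1 G S v hv (by omega)).1
    rw [hd] at h1
    unfold dd
    omega
  have hUU : ∀ I, Inj W I → cc n * (2 ^ ((S.erase v).card - 3) * EE a) ≤
      ((bet (G ⊔ tE t I) (S.erase v) : ℤ) : ℝ) := by
    intro I hI
    have hcl := hW2 I hI
    rw [← hun] at hcl
    have h1 := hK V p hp.1 G (tE t I) S (tS t) P {v} h3 hc (tE_le t I) hcl
    have h2 := hFR V p hp G (tE t I) S (tS t) P {v} n hc (tE_le t I) hcl hfam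
    rw [hun] at h1 h2
    have h4 := hIH _ _ (Or.inl (by omega)) h1 n h2
    unfold FF at h4
    rw [hddI, inj_iff.1 hI, add_zero] at h4
    exact h4
  have hconn : Conn G (S.erase v) := by
    have := (hS V G S (tS t) P {v} h3 hc).1
    rwa [hun] at this
  have hnn : ∀ I, 0 ≤ ((bet (G ⊔ tE t I) (S.erase v) : ℤ) : ℝ) := by
    intro I
    exact_mod_cast hB V (G ⊔ tE t I) (S.erase v) (conn_mono le_sup_left hconn) (by omega)
  have hcn := cc_pos n
  have hEa := hpos a
  set k : ℝ := 2 ^ ((S.erase v).card - 3) with hk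
  have hkpos : 0 < k := by positivity
  have hk2 : (2 : ℝ) ^ (S.card - 3) = 2 * k := by
    have : S.card - 3 = ((S.erase v).card - 3) + 1 := by omega
    rw [this, pow_succ]; ring
  obtain ⟨c0, c2, c3, c1⟩ := hA W (cc n * (k * EE a)) (bet G S : ℝ)
    (fun I => ((bet (G ⊔ tE t I) (S.erase v) : ℤ) : ℝ)) (by positivity) hnn hUU
    (fun i => by exact_mod_cast hD V G S v t h3 hv ht hnb i)
    (by exact_mod_cast hDA V G S v t h3 h5 hv ht hnb)
  have hWle : dfc W ∅ ≤ 3 := by
    rw [finrank_W]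
    calc _ ≤ Module.finrank ℝ (Fin 3 → ℝ) := Submodule.finrank_le W
      _ = 3 := by simp
  unfold FF
  rw [hddS, hk2]
  have hw : dfc W ∅ = 0 ∨ dfc W ∅ = 1 ∨ dfc W ∅ = 2 ∨ dfc W ∅ = 3 := by omega
  have hck : 0 < cc n * k := by positivity
  rcases hw with hw | hw | hw | hw
  · rw [hw, add_zero]
    have := c0 hw
    linarith
  · rw [hw]
    have h1 := h32 a
    rcases c1 hw with h2 | ⟨i, hi, hi2⟩
    · have h4 : cc n * k * EE (a + 1) ≤ cc n * k * EE a :=
        mul_le_mul_of_nonneg_left (hmono _ _ (Nat.le_succ a)) hck.le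
      linarith
    · have hncl : ¬ Clus p G (S.erase v) (tS t) := by
        intro hcl
        have hbot : dfc W ∅ = 0 := by
          rw [← inj_iff]
          intro ν hν _
          funext j
          have h6 := hν (Pi.single j 1)
          have h7 : ∑ i, (Pi.single j (1 : ℝ) : Fin 3 → ℝ) i • row p (t (i + 1)) (t (i + 2)) =
              row p (t (j + 1)) (t (j + 2)) := by
            rw [Finset.sum_eq_single j]
            · rw [Pi.single_eq_same, one_smul]
            · intro b _ hb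
              rw [Pi.single_eq_of_ne hb, zero_smul]
            · intro h; exact (h (mem_univ _)).elim
          rw [h7] at h6
          have h8 := h6 (hcl.2 _ (mem_tS.2 ⟨_, rfl⟩) _ (mem_tS.2 ⟨_, rfl⟩))
          rw [Finset.sum_eq_single j] at h8
          · rw [Pi.single_eq_same, one_mul] at h8
            exact h8
          · intro b _ hb
            rw [Pi.single_eq_of_ne hb, zero_mul]
          · intro h; exact (h (mem_univ _)).elim
        omega
      have h6 := hNH V G S v t h3 h5 hv ht hnb i (hhub _)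
      have h7 := hFB V p hp G S v t n h3 h5 hv ht hnb hncl hfam i
      have h8 := hIH _ _ (Or.inl (by omega)) h6 _ h7
      unfold FF at h8
      rw [hddI, hi2] at h8
      have h9 := hUU {i} hi
      have h10 := hD V G S v t h3 hv ht hnb i
      have h11 : (bet G S : ℝ) = ((bet (G ⊔ tE t {i + 1, i + 2}) (S.erase v) : ℤ) : ℝ) +
          ((bet (G ⊔ tE t {i}) (S.erase v) : ℤ) : ℝ) := by exact_mod_cast h10
      rw [h11]
      have h12 := hpos (a + 1)
      have h13 : 3 / 4 * cc n * (k * EE (a + 1)) ≤ cc (n + 1) * (k * EE (a + 1)) :=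
        mul_le_mul_of_nonneg_right (cc_succ n) (by positivity)
      have h14 : cc n * k * (3 / 2 * EE (a + 1)) ≤ cc n * k * EE a :=
        mul_le_mul_of_nonneg_left h1 hck.le
      have h15 : 0 < cc n * k * EE (a + 1) := by positivity
      linarith
  · rw [hw]
    have h1 := c2 hw
    have h2 := h33 a
    have h4 := hpos (a + 2)
    have h5 : 0 < cc n * k * EE (a + 2) := by positivity
    have h6 : cc n * (k * EE a) = 3 * (cc n * k * EE (a + 2)) := by rw [← h2]; ring
    linarith
  · rw [hw]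
    have h1 := c3 hw
    have h2 := h33 (a + 1)
    have h4 := h32 a
    have h5 := hpos (a + 3)
    have h6 : EE (a + 1) = 3 * EE (a + 3) := h2.symm
    have h7 : cc n * k * (9 / 2 * EE (a + 3)) ≤ cc n * k * EE a := by
      refine mul_le_mul_of_nonneg_left ?_ hck.le
      rw [h6] at h4
      linarith
    have h8 : 0 < cc n * k * EE (a + 3) := by positivity
    linarith

end Pool.Agent.Xu.X2.H98
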