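import Pool.Agent.Lib.MP_144d21_co.X2.H98.Tc

/-!
# X2: KEY, MIN1, MIN2, NOHUB
-/

set_option autoImplicit false
set_option linter.unusedSectionVars false

namespace Pool.Agent.Xu.X2.H98

open Finset Pool.Agent.Xu Pool.Agent.Xu.X2

variable {V : Type} [Fintype V] [DecidableEq V]

theorem Cut3.side_card {G : SimpleGraph V} {S T P Q : Finset V} (h : Cut3 G S T P Q) :
    4 ≤ (T ∪ P).card := by
  rw [card_union_of_disjoint h.tp, h.card]
  have := h.pn.card_pos
  omega

theorem Cut3.side_sub {G : SimpleGraph V} {S T P Q : Finset V} (h : Cut3 G S T P Q) :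
    T ∪ P ⊆ S := by
  rw [← h.un]; exact subset_union_left

theorem Cut3.diff {G : SimpleGraph V} {S T P Q : Finset V} (h : Cut3 G S T P Q) {b : V}
    (hb : b ∈ S) (hb2 : b ∉ T ∪ P) : b ∈ Q := by
  rw [← h.un] at hb
  rcases mem_union.1 hb with hb | hb
  · exact (hb2 hb).elim
  · exact hb

/-- a separation of a side which does not meet `T` on one side is a separation of the graph -/
theorem side_lift {G G' : SimpleGraph V} {S T P Q C A B : Finset V} (hc : Cut3 G S T P Q)
    (hG : G ≤ G') (h : Sp G' (T ∪ P) C A B) (hA : ∀ a ∈ A, a ∉ T) :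
    Sp G S C A (B ∪ (S \ (T ∪ P))) := by
  refine h.lift hG (Cut3.side_sub hc) ?_
  intro a ha b hb hb2
  have hAS : A ⊆ T ∪ P := by rw [← h.un]; exact subset_union_right.trans subset_union_left
  have haP : a ∈ P := (mem_union.1 (hAS ha)).resolve_left (hA a ha)
  exact hc.ne a haP b (Cut3.diff hc hb hb2)

theorem key (hH : HingeS) : KeyS := by
  intro V _ _ p hp G F S T P Q h3 hc hF hcl
  refine tc_of (Cut3.side_card hc) ?_
  intro C A B h hC
  by_cases hA : ∀ a ∈ A, a ∉ T
  · exact no_sp h3 (side_lift hc le_sup_left h hA) hC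
  by_cases hB : ∀ b ∈ B, b ∉ T
  · exact no_sp h3 (side_lift hc le_sup_left h.symm hB) hC
  push Not at hA hB
  obtain ⟨x, hxA, hxT⟩ := hA
  obtain ⟨y, hyB, hyT⟩ := hB
  have hxC : x ∉ C := fun hx => disjoint_left.1 h.ca hx hxA
  have hyC : y ∉ C := fun hy => disjoint_left.1 h.cb hy hyB
  have hxB : x ∉ B := fun hx => disjoint_left.1 h.ab hxA hx
  have hyA : y ∉ A := fun hy => disjoint_left.1 h.ab hy hyB
  have h1 := hH V p hp (G ⊔ F) (C ∪ A) (C ∪ B) ?_ ?_ x (mem_union_right _ hxA)
    (by rw [mem_union]; tauto) y (mem_union_right _ hyB) (by rw [mem_union]; tauto)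
  · apply h1
    have : (C ∪ A) ∪ (C ∪ B) = T ∪ P := by
      rw [← h.un]
      ext z
      simp only [mem_union]
      tauto
    rw [this]
    exact hcl.2 x hxT y hyT
  · intro a ha ha2 b hb hb2
    rw [mem_union, not_or] at ha2 hb2
    exact h.ne a ((mem_union.1 ha).resolve_left ha2.1) b ((mem_union.1 hb).resolve_left hb2.1)
  · have : (C ∪ A) ∩ (C ∪ B) = C := by
      rw [← union_inter_distrib_left, disjoint_iff_inter_eq_empty.1 h.ab, union_empty]
    rw [this]; exact hC

theorem min2 : Min2S := by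
  intro V _ _ G F S T P Q hc hm hF T' P' Q' hc'
  by_contra hcon
  push Not at hcon
  have h1 : Cut3 G S T' P' (Q' ∪ (S \ (T ∪ Q))) :=
    (side_lift hc.symm le_sup_left hc'.sp hcon).cut hc'.card
  have hPQ : P' ⊆ Q := by
    intro x hx
    have : x ∈ T ∪ Q := by
      rw [← hc'.un]; exact mem_union_left _ (mem_union_right _ hx)
    exact (mem_union.1 this).resolve_left (hcon x hx)
  have hPQ' : P' = Q := hm T' _ P' h1.symm hPQ
  obtain ⟨y, hy⟩ := hc'.qn
  have hT : T' ⊆ T := by
    intro x hx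
    have hx1 : x ∈ T ∪ Q := by
      rw [← hc'.un]; exact mem_union_left _ (mem_union_left _ hx)
    refine (mem_union.1 hx1).resolve_right ?_
    rw [← hPQ']
    exact disjoint_left.1 hc'.tp hx
  have hT' : T' = T := eq_of_subset_of_card_le hT (by rw [hc.card, hc'.card])
  have hy1 : y ∈ T ∪ Q := by rw [← hc'.un]; exact mem_union_right _ hy
  rcases mem_union.1 hy1 with hy1 | hy1
  · rw [← hT'] at hy1
    exact disjoint_left.1 hc'.tq hy1 hy
  · rw [← hPQ'] at hy1
    exact disjoint_left.1 hc'.pq hy1 hy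

/-- the two pairs at `t i` -/
theorem tE_adj {t : Fin 3 → V} (ht : Function.Injective t) (i j : Fin 3) (hj : j ≠ i) :
    (tE t {i + 1, i + 2}).Adj (t i) (t j) := by
  refine ⟨fun h => hj (ht h).symm, ?_⟩
  fin_cases i <;> fin_cases j <;> simp_all

theorem mem_tS {t : Fin 3 → V} {x : V} : x ∈ tS t ↔ ∃ j, t j = x := by
  simp [tS]

theorem tS_card {t : Fin 3 → V} (ht : Function.Injective t) : (tS t).card = 3 := by
  unfold tS
  rw [card_image_of_injective _ ht, card_univ, Fintype.card_fin]

/-- the middle vertex `t i` lies in the cut if both sides meet `T` -/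
theorem mid_mem {G : SimpleGraph V} {S' C A B : Finset V} {t : Fin 3 → V}
    (ht : Function.Injective t) (i : Fin 3) (hT : tS t ⊆ S')
    (h : Sp (G ⊔ tE t {i + 1, i + 2}) S' C A B) {x y : V} (hxA : x ∈ A) (hxT : x ∈ tS t)
    (hyB : y ∈ B) (hyT : y ∈ tS t) : t i ∈ C := by
  obtain ⟨j, rfl⟩ := mem_tS.1 hxT
  obtain ⟨k, rfl⟩ := mem_tS.1 hyT
  have h1 : t i ∈ S' := hT (mem_tS.2 ⟨i, rfl⟩)
  rw [← h.un, mem_union, mem_union] at h1
  rcases h1 with (h1 | h1) | h1
  · exact h1
  · exfalso
    have hk : k ≠ i := by rintro rfl; exact disjoint_left.1 h.ab h1 hyB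
    exact h.ne _ h1 _ hyB (Or.inr (tE_adj ht i k hk))
  · exfalso
    have hj : j ≠ i := by rintro rfl; exact disjoint_left.1 h.ab hxA h1
    exact h.ne _ hxA _ h1 (Or.inr (tE_adj ht i j hj).symm)

theorem shrink {G G' : SimpleGraph V} {S T P Q C A B : Finset V} (h3 : ThreeConn G S)
    (hc : Cut3 G S T P Q) (hm : MinSide G S Q) (h : Sp G' (T ∪ Q) C A B) (hG : G ≤ G')
    (hC : C.card ≤ 2) {x y : V} (hxA : x ∈ A) (hxT : x ∈ T) (hyB : y ∈ B) (hyT : y ∈ T)
    (hCT : (C ∩ T).card ≤ 1) (hAT : ∀ a ∈ A, a ∈ T → a = x) : A = {x} := by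
  by_contra hne
  have hAn : (A.erase x).Nonempty := by
    rw [nonempty_iff_ne_empty]
    intro he
    rw [erase_eq_empty_iff] at he
    rcases he with he | he
    · rw [he] at hxA; exact notMem_empty _ hxA
    · exact hne he
  have h1 : Sp G' (T ∪ Q) (insert x C) (A.erase x) B := by
    refine ⟨?_, ?_, ?_, ?_, hAn, h.bn, ?_⟩
    · rw [← h.un]
      ext z
      simp only [mem_union, mem_insert, mem_erase]
      constructor
      · rintro (((rfl | h) | h) | h)
        · exact Or.inl (Or.inr hxA)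
        · exact Or.inl (Or.inl h)
        · exact Or.inl (Or.inr h.2)
        · exact Or.inr h
      · rintro ((h | h) | h)
        · exact Or.inl (Or.inl (Or.inr h))
        · by_cases hz : z = x
          · exact Or.inl (Or.inl (Or.inl hz))
          · exact Or.inl (Or.inr ⟨hz, h⟩)
        · exact Or.inr h
    · rw [disjoint_insert_left]
      exact ⟨notMem_erase _ _, h.ca.mono_right (erase_subset _ _)⟩
    · rw [disjoint_insert_left]
      exact ⟨disjoint_left.1 h.ab hxA, h.cb⟩
    · exact h.ab.mono_left (erase_subset _ _)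
    · exact fun a ha b hb => h.ne a (mem_of_mem_erase ha) b hb
  have hxC : x ∉ C := disjoint_right.1 h.ca hxA
  have hnT : ∀ a ∈ A.erase x, a ∉ T := by
    intro a ha haT
    exact (ne_of_mem_erase ha) (hAT a (mem_of_mem_erase ha) haT)
  have h2 := side_lift hc.symm hG h1 hnT
  have hcard : (insert x C).card = C.card + 1 := card_insert_of_notMem hxC
  by_cases hC2 : C.card ≤ 1
  · exact no_sp h3 h2 (by omega)
  have h4 := h2.cut (by omega)
  have hsub : A.erase x ⊆ Q := by
    intro a ha
    have : a ∈ T ∪ Q := by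
      rw [← h.un]; exact mem_union_left _ (mem_union_right _ (mem_of_mem_erase ha))
    exact (mem_union.1 this).resolve_left (hnT a ha)
  have h5 : A.erase x = Q := hm _ _ _ h4.symm hsub
  -- `C` has an element outside `T`
  have h6 : ∃ w ∈ C, w ∉ T := by
    by_contra hcon
    push Not at hcon
    have : C ∩ T = C := inter_eq_left.2 hcon
    rw [this] at hCT
    exact hC2 hCT
  obtain ⟨w, hw, hwT⟩ := h6
  have hw2 : w ∈ T ∪ Q := by rw [← h.un]; exact mem_union_left _ (mem_union_left _ hw)
  have hwQ := (mem_union.1 hw2).resolve_left hwT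
  rw [← h5] at hwQ
  exact disjoint_left.1 h.ca hw (mem_of_mem_erase hwQ)

theorem min1 : Min1S := by
  intro V _ _ G S T P Q t h3 hc hQ hm ht hT i
  refine tc_of (Cut3.side_card hc.symm) ?_
  intro C A B h hC
  by_cases hA : ∀ a ∈ A, a ∉ T
  · exact no_sp h3 (side_lift hc.symm le_sup_left h hA) hC
  by_cases hB : ∀ b ∈ B, b ∉ T
  · exact no_sp h3 (side_lift hc.symm le_sup_left h.symm hB) hC
  push Not at hA hB
  obtain ⟨x, hxA, hxT⟩ := hA
  obtain ⟨y, hyB, hyT⟩ := hB
  have hmid : t i ∈ C := mid_mem ht i (hT ▸ subset_union_left) h hxA (hT ▸ hxT) hyB (hT ▸ hyT)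
  have hxy : x ≠ y := fun he => disjoint_left.1 h.ab hxA (he ▸ hyB)
  have hxi : x ≠ t i := fun he => disjoint_left.1 h.ca hmid (he ▸ hxA)
  have hyi : y ≠ t i := fun he => disjoint_left.1 h.cb hmid (he ▸ hyB)
  have hTi : t i ∈ T := hT ▸ mem_tS.2 ⟨i, rfl⟩
  have hTe : T = {t i, x, y} := by
    symm
    refine eq_of_subset_of_card_le ?_ ?_
    · intro z hz
      simp only [mem_insert, mem_singleton] at hz
      rcases hz with rfl | rfl | rfl <;> assumption
    · rw [hc.card, card_insert_of_notMem, card_pair hxy]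
      simp only [mem_insert, mem_singleton, not_or]
      exact ⟨hxi.symm, hyi.symm⟩
  have hxC : x ∉ C := disjoint_right.1 h.ca hxA
  have hyC : y ∉ C := disjoint_right.1 h.cb hyB
  have hCT : (C ∩ T).card ≤ 1 := by
    rw [card_le_one]
    intro a ha b hb
    rw [mem_inter, hTe] at ha hb
    simp only [mem_insert, mem_singleton] at ha hb
    rcases ha.2 with rfl | rfl | rfl
    · rcases hb.2 with rfl | rfl | rfl
      · rfl
      · exact (hxC hb.1).elim
      · exact (hyC hb.1).elim
    · exact (hxC ha.1).elim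
    · exact (hyC ha.1).elim
  have hA1 : A = {x} := by
    refine shrink h3 hc hm h le_sup_left hC hxA hxT hyB hyT hCT ?_
    intro a ha haT
    rw [hTe] at haT
    simp only [mem_insert, mem_singleton] at haT
    rcases haT with rfl | rfl | rfl
    · exact (disjoint_left.1 h.ca hmid ha).elim
    · rfl
    · exact (disjoint_left.1 h.ab ha hyB).elim
  have hB1 : B = {y} := by
    refine shrink h3 hc hm h.symm le_sup_left hC hyB hyT hxA hxT hCT ?_
    intro a ha haT
    rw [hTe] at haT
    simp only [mem_insert, mem_singleton] at haT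
    rcases haT with rfl | rfl | rfl
    · exact (disjoint_left.1 h.cb hmid ha).elim
    · exact (disjoint_left.1 h.ab hxA ha).elim
    · rfl
  have h5 : (T ∪ Q).card ≤ 4 := by
    rw [← h.un, hA1, hB1]
    refine (card_union_le _ _).trans ?_
    have := card_union_le C {x}
    rw [card_singleton] at *
    omega
  rw [card_union_of_disjoint hc.tq, hc.card] at h5
  omega

theorem nohub : NohubS := by
  intro V _ _ G S v t h3 h5 hv ht hnb i hhub
  have hvT : v ∉ tS t := by
    rw [← hnb, mem_nb]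
    exact fun h => h.2.ne rfl
  refine tc_of (by rw [card_erase_of_mem hv]; omega) ?_
  intro C A B h hC
  have hlift : ∀ C A B, Sp (G ⊔ tE t {i + 1, i + 2}) (S.erase v) C A B → (∀ a ∈ A, a ∉ tS t) →
      C.card ≤ 2 → False := by
    intro C A B h hA hC
    refine no_sp h3 (h.lift le_sup_left (erase_subset _ _) ?_) hC
    intro a ha b hb hb2 hab
    have hbv : b = v := by
      by_contra hne
      exact hb2 (mem_erase.2 ⟨hne, hb⟩)
    subst hbv
    refine hA a ha ?_
    rw [← hnb, mem_nb]
    have haS : a ∈ S.erase b := by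
      rw [← h.un]; exact mem_union_left _ (mem_union_right _ ha)
    exact ⟨mem_of_mem_erase haS, hab.symm⟩
  by_cases hA : ∀ a ∈ A, a ∉ tS t
  · exact hlift _ _ _ h hA hC
  by_cases hB : ∀ b ∈ B, b ∉ tS t
  · exact hlift _ _ _ h.symm hB hC
  push Not at hA hB
  obtain ⟨x, hxA, hxT⟩ := hA
  obtain ⟨y, hyB, hyT⟩ := hB
  have hTS : tS t ⊆ S.erase v := by
    intro z hz
    refine mem_erase.2 ⟨fun he => hvT (he ▸ hz), ?_⟩
    rw [← hnb, mem_nb] at hz
    exact hz.1
  have hmid : t i ∈ C := mid_mem ht i hTS h hxA hxT hyB hyT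
  have hvC : v ∉ C := by
    intro hvC
    have : v ∈ S.erase v := by rw [← h.un]; exact mem_union_left _ (mem_union_left _ hvC)
    exact (notMem_erase v S) this
  have hsp : Sp G S (insert v C) A B := by
    refine ⟨?_, ?_, ?_, h.ab, h.an, h.bn, fun a ha b hb hab => h.ne a ha b hb (Or.inl hab)⟩
    · rw [insert_union, insert_union, h.un, insert_erase hv]
    · rw [disjoint_insert_left]
      refine ⟨?_, h.ca⟩
      intro hvA
      have : v ∈ S.erase v := by rw [← h.un]; exact mem_union_left _ (mem_union_right _ hvA)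
      exact (notMem_erase v S) this
    · rw [disjoint_insert_left]
      refine ⟨?_, h.cb⟩
      intro hvB
      have : v ∈ S.erase v := by rw [← h.un]; exact mem_union_right _ hvB
      exact (notMem_erase v S) this
  by_cases hC1 : C.card ≤ 1
  · refine no_sp h3 hsp ?_
    rw [card_insert_of_notMem hvC]; omega
  have hC2 : C.card = 2 := by omega
  obtain ⟨a, b, hab, rfl⟩ := card_eq_two.1 hC2
  refine hhub ⟨?_, ?_⟩
  · have : t i ∈ nb G S v := by rw [hnb]; exact mem_tS.2 ⟨i, rfl⟩
    exact (mem_nb.1 this).2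
  · have hcut := hsp.cut (by rw [card_insert_of_notMem hvC]; omega)
    simp only [mem_insert, mem_singleton] at hmid
    rcases hmid with hm | hm
    · exact ⟨b, A, B, by rw [hm]; exact hcut⟩
    · refine ⟨a, A, B, ?_⟩
      rw [hm, pair_comm b a]
      exact hcut

end Pool.Agent.Xu.X2.H98
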