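import Pool.Agent.Lib.MP_144d21_co.X2.IfaceS

/-!
# X2: separations and 3-connectivity
-/

set_option autoImplicit false
set_option linter.unusedSectionVars false

namespace Pool.Agent.Xu.X2.H98

open Finset Pool.Agent.Xu Pool.Agent.Xu.X2

variable {V : Type} [Fintype V] [DecidableEq V]

/-- `C` separates `A` from `B` in `G[S]` -/
structure Sp (G : SimpleGraph V) (S C A B : Finset V) : Prop where
  un : C ∪ A ∪ B = S
  ca : Disjoint C A
  cb : Disjoint C B
  ab : Disjoint A B
  an : A.Nonempty
  bn : B.Nonempty
  ne : ∀ a ∈ A, ∀ b ∈ B, ¬ G.Adj a b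

omit [Fintype V] in
theorem Sp.symm {G : SimpleGraph V} {S C A B : Finset V} (h : Sp G S C A B) : Sp G S C B A :=
  ⟨by rw [union_assoc, union_comm B A, ← union_assoc]; exact h.un, h.cb, h.ca, h.ab.symm,
    h.bn, h.an, fun a ha b hb hab => h.ne b hb a ha hab.symm⟩

theorem Sp.cut {G : SimpleGraph V} {S C A B : Finset V} (h : Sp G S C A B) (hc : C.card = 3) :
    Cut3 G S C A B :=
  ⟨hc, h.un, h.ca, h.cb, h.ab, h.an, h.bn, h.ne⟩

theorem _root_.Pool.Agent.Xu.X2.Cut3.sp {G : SimpleGraph V} {S C A B : Finset V}
    (h : Cut3 G S C A B) : Sp G S C A B :=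
  ⟨h.un, h.tp, h.tq, h.pq, h.pn, h.qn, h.ne⟩

/-- enlarge the second side by the rest of the graph -/
theorem Sp.lift {G G' : SimpleGraph V} {S S' C A B : Finset V} (h : Sp G' S' C A B)
    (hG : G ≤ G') (hS : S' ⊆ S) (hA : ∀ a ∈ A, ∀ b ∈ S, b ∉ S' → ¬ G.Adj a b) :
    Sp G S C A (B ∪ (S \ S')) := by
  have hCS : C ⊆ S' := by rw [← h.un]; exact subset_union_left.trans subset_union_left
  have hAS : A ⊆ S' := by rw [← h.un]; exact subset_union_right.trans subset_union_left
  refine ⟨?_, h.ca, ?_, ?_, h.an, h.bn.mono subset_union_left, ?_⟩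
  · rw [← union_assoc, h.un]
    exact union_sdiff_of_subset hS
  · rw [disjoint_union_right]
    exact ⟨h.cb, (disjoint_sdiff).mono_left hCS⟩
  · rw [disjoint_union_right]
    exact ⟨h.ab, (disjoint_sdiff).mono_left hAS⟩
  · intro a ha b hb hab
    rcases mem_union.1 hb with hb | hb
    · exact h.ne a ha b hb (hG hab)
    · rw [mem_sdiff] at hb
      exact hA a ha b hb.1 hb.2 hab

/-- a 3-connected graph has no separation of order at most 2 -/
theorem no_sp {G : SimpleGraph V} {S : Finset V} (h3 : ThreeConn G S) {C A B : Finset V}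
    (h : Sp G S C A B) (hC : C.card ≤ 2) : False := by
  obtain ⟨-, ⟨-, h0, h1⟩, h2⟩ := h3
  have hCS : C ⊆ S := by rw [← h.un]; exact subset_union_left.trans subset_union_left
  have hAS : A ⊆ S := by rw [← h.un]; exact subset_union_right.trans subset_union_left
  have hBS : B ⊆ S := by rw [← h.un]; exact subset_union_right
  -- the set `S \ C` is connected
  have key : Conn G (S \ C) → False := by
    intro hc
    have hA1 : A ⊆ S \ C := fun a ha => mem_sdiff.2 ⟨hAS ha, disjoint_right.1 h.ca ha⟩
    obtain ⟨b0, hb0⟩ := h.bn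
    have hne : A ≠ S \ C := by
      intro he
      have : b0 ∈ A := by
        rw [he]; exact mem_sdiff.2 ⟨hBS hb0, disjoint_right.1 h.cb hb0⟩
      exact disjoint_left.1 h.ab this hb0
    obtain ⟨a, ha, b, hb, hbA, hab⟩ := hc.2 A hA1 h.an hne
    rw [mem_sdiff, ← h.un, mem_union, mem_union] at hb
    rcases hb.1 with (hb1 | hb1) | hb1
    · exact hb.2 hb1
    · exact hbA hb1
    · exact h.ne a ha b hb1 hab
  have hcases : C.card = 0 ∨ C.card = 1 ∨ C.card = 2 := by omega
  rcases hcases with hc | hc | hc
  · rw [card_eq_zero] at hc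
    subst hc
    exact key (by rwa [sdiff_empty])
  · rw [card_eq_one] at hc
    obtain ⟨x, rfl⟩ := hc
    refine key ?_
    rw [sdiff_singleton_eq_erase]
    exact h1 x (hCS (mem_singleton_self x))
  · rw [card_eq_two] at hc
    obtain ⟨x, y, hxy, rfl⟩ := hc
    refine key ?_
    have : S \ {x, y} = (S.erase x).erase y := by
      ext z
      simp only [mem_sdiff, mem_insert, mem_singleton, mem_erase]
      tauto
    rw [this]
    exact h2 x (hCS (by simp)) y (hCS (by simp)) hxy

/-- no separation of order at most 2: 3-connected -/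
theorem tc_of {G : SimpleGraph V} {S : Finset V} (h4 : 4 ≤ S.card)
    (h : ∀ C A B, Sp G S C A B → C.card ≤ 2 → False) : ThreeConn G S := by
  have key : ∀ C ⊆ S, C.card ≤ 2 → Conn G (S \ C) := by
    intro C hC hc
    constructor
    · rw [← card_pos, card_sdiff_of_subset hC]
      omega
    · intro A hA hAn hne
      by_contra hcon
      push Not at hcon
      have hBn : ((S \ C) \ A).Nonempty := by
        rw [nonempty_iff_ne_empty]
        intro he
        exact hne (subset_antisymm hA (sdiff_eq_empty_iff_subset.1 he))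
      refine h C A ((S \ C) \ A) ⟨?_, ?_, ?_, ?_, hAn, hBn, ?_⟩ hc
      · ext z
        have h1 : z ∈ A → z ∈ S ∧ z ∉ C := fun hz => mem_sdiff.1 (hA hz)
        have h2 : z ∈ C → z ∈ S := fun hz => hC hz
        simp only [mem_union, mem_sdiff]
        tauto
      · exact (disjoint_sdiff.mono_right hA)
      · exact (disjoint_sdiff.mono_right sdiff_subset)
      · exact disjoint_sdiff
      · intro a ha b hb
        rw [mem_sdiff] at hb
        exact hcon a ha b hb.1 hb.2
  refine ⟨h4, ⟨by omega, ?_, ?_⟩, ?_⟩
  · have := key ∅ (empty_subset _) (by simp)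
    rwa [sdiff_empty] at this
  · intro v hv
    have := key {v} (by simpa using hv) (by simp)
    rwa [sdiff_singleton_eq_erase] at this
  · intro x hx y hy hxy
    have := key {x, y} (by intro z hz; simp only [mem_insert, mem_singleton] at hz
                           rcases hz with rfl | rfl <;> assumption) (card_le_two)
    have he : S \ {x, y} = (S.erase x).erase y := by
      ext z
      simp only [mem_sdiff, mem_insert, mem_singleton, mem_erase]
      tauto
    rwa [he] at this

end Pool.Agent.Xu.X2.H98
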